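import Pool.Agent.Q132.SEM

namespace Pool.Agent.Results.MP_4fbecc_co.EvenLadders

open Pool.Agent.Q132

/-- The ladder `L_n`: the vertex `(i, false)` is `u_{i+1}` and `(i, true)` is `v_{i+1}`. -/
def ladder (n : ℕ) : SimpleGraph (Fin n × Bool) where
  Adj x y := (x.2 = y.2 ∧ (x.1.val + 1 = y.1.val ∨ y.1.val + 1 = x.1.val)) ∨
    (x.2 ≠ y.2 ∧ x.1 = y.1)
  symm := ⟨fun x y h => by
    rcases h with h | h
    · exact Or.inl ⟨h.1.symm, h.2.symm⟩
    · exact Or.inr ⟨h.1.symm, h.2.symm⟩⟩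
  loopless := ⟨fun x h => by
    rcases h with h | h
    · omega
    · exact h.1 rfl⟩

/-- The index type of the edges of `L_n`. -/
abbrev Idx (n : ℕ) : Type := (Fin (n - 1) × Bool) ⊕ Fin n

def endA {n : ℕ} : Idx n → Fin n × Bool
  | Sum.inl (i, b) => (⟨i.val, by omega⟩, b)
  | Sum.inr i => (i, false)

def endB {n : ℕ} : Idx n → Fin n × Bool
  | Sum.inl (i, b) => (⟨i.val + 1, by omega⟩, b)
  | Sum.inr i => (i, true)

theorem adj_ends {n : ℕ} (i : Idx n) : (ladder n).Adj (endA i) (endB i) := by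
  rcases i with ⟨i, b⟩ | i
  · exact Or.inl ⟨rfl, Or.inl rfl⟩
  · exact Or.inr ⟨by simp [endA, endB], rfl⟩

theorem all_ends {n : ℕ} (x y : Fin n × Bool) (h : (ladder n).Adj x y) :
    ∃ i : Idx n, (endA i = x ∧ endB i = y) ∨ (endA i = y ∧ endB i = x) := by
  obtain ⟨i, a⟩ := x
  obtain ⟨j, b⟩ := y
  rcases h with ⟨h1, h2 | h2⟩ | ⟨h1, h2⟩
  · change a = b at h1
    change i.val + 1 = j.val at h2
    subst h1
    refine ⟨Sum.inl (⟨i.val, by omega⟩, a), Or.inl ⟨rfl, ?_⟩⟩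
    exact Prod.ext (Fin.ext h2) rfl
  · change a = b at h1
    change j.val + 1 = i.val at h2
    subst h1
    refine ⟨Sum.inl (⟨j.val, by omega⟩, a), Or.inr ⟨rfl, ?_⟩⟩
    exact Prod.ext (Fin.ext h2) rfl
  · change a ≠ b at h1
    change i = j at h2
    subst h2
    cases a <;> cases b
    · exact absurd rfl h1
    · exact ⟨Sum.inr i, Or.inl ⟨rfl, rfl⟩⟩
    · exact ⟨Sum.inr i, Or.inr ⟨rfl, rfl⟩⟩
    · exact absurd rfl h1

theorem card_idx (n : ℕ) (hn : 1 ≤ n) : Fintype.card (Idx n) = 3 * n - 2 := by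
  rw [Fintype.card_sum, Fintype.card_prod, Fintype.card_fin, Fintype.card_fin, Fintype.card_bool]
  omega

/-- The criterion in terms of the two label functions. -/
theorem sem_of {n : ℕ} (hn : 1 ≤ n) (u v : ℕ → ℕ) (s : ℕ)
    (hu : ∀ i j, i < n → j < n → u i = u j → i = j)
    (hv : ∀ i j, i < n → j < n → v i = v j → i = j)
    (huv : ∀ i j, i < n → j < n → u i ≠ v j)
    (hur : ∀ i, i < n → 1 ≤ u i ∧ u i ≤ 2 * n) (hvr : ∀ i, i < n → 1 ≤ v i ∧ v i ≤ 2 * n)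
    (suu : ∀ i j, i + 1 < n → j + 1 < n → u i + u (i + 1) = u j + u (j + 1) → i = j)
    (svv : ∀ i j, i + 1 < n → j + 1 < n → v i + v (i + 1) = v j + v (j + 1) → i = j)
    (srr : ∀ i j, i < n → j < n → u i + v i = u j + v j → i = j)
    (suv : ∀ i j, i + 1 < n → j + 1 < n → u i + u (i + 1) ≠ v j + v (j + 1))
    (sur : ∀ i j, i + 1 < n → j < n → u i + u (i + 1) ≠ u j + v j)
    (svr : ∀ i j, i + 1 < n → j < n → v i + v (i + 1) ≠ u j + v j)
    (ru : ∀ i, i + 1 < n → s ≤ u i + u (i + 1) ∧ u i + u (i + 1) < s + (3 * n - 2))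
    (rv : ∀ i, i + 1 < n → s ≤ v i + v (i + 1) ∧ v i + v (i + 1) < s + (3 * n - 2))
    (rr : ∀ i, i < n → s ≤ u i + v i ∧ u i + v i < s + (3 * n - 2)) :
    SuperEdgeMagic (ladder n) := by
  have hcardV : Fintype.card (Fin n × Bool) = 2 * n := by
    rw [Fintype.card_prod, Fintype.card_fin, Fintype.card_bool]; omega
  refine superEdgeMagic_of (ladder n) endA endB adj_ends all_ends
    (fun x => if x.2 then v x.1.val else u x.1.val) ?_ ?_ s ?_ ?_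
  · rintro ⟨i, a⟩ ⟨j, b⟩ h
    cases a <;> cases b
    · have := hu i.val j.val i.isLt j.isLt h
      exact Prod.ext (Fin.ext this) rfl
    · exact absurd h (huv i.val j.val i.isLt j.isLt)
    · exact absurd h.symm (huv j.val i.val j.isLt i.isLt)
    · have := hv i.val j.val i.isLt j.isLt h
      exact Prod.ext (Fin.ext this) rfl
  · rintro ⟨i, a⟩
    rw [hcardV]
    cases a
    · exact hur i.val i.isLt
    · exact hvr i.val i.isLt
  · rintro (⟨i, a⟩ | i) (⟨j, b⟩ | j) h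
    · have hi := i.isLt
      have hj := j.isLt
      cases a <;> cases b
      · have := suu i.val j.val (by omega) (by omega) h
        rw [Fin.ext this]
      · exact absurd h (suv i.val j.val (by omega) (by omega))
      · exact absurd h.symm (suv j.val i.val (by omega) (by omega))
      · have := svv i.val j.val (by omega) (by omega) h
        rw [Fin.ext this]
    · have hi := i.isLt
      cases a
      · exact absurd h (sur i.val j.val (by omega) j.isLt)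
      · exact absurd h (svr i.val j.val (by omega) j.isLt)
    · have hj := j.isLt
      cases b
      · exact absurd h.symm (sur j.val i.val (by omega) i.isLt)
      · exact absurd h.symm (svr j.val i.val (by omega) i.isLt)
    · have := srr i.val j.val i.isLt j.isLt h
      rw [Fin.ext this]
  · rw [card_idx n hn]
    rintro (⟨i, a⟩ | i)
    · have hi := i.isLt
      cases a
      · exact ru i.val (by omega)
      · exact rv i.val (by omega)
    · exact rr i.val i.isLt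

/-! ### Lengths divisible by four, at least eight -/

def u0 (k i : ℕ) : ℕ :=
  if i + 2 ≤ 2 * k then (if i % 2 = 0 then 2 * k + 1 + i / 2 else 2 + i / 2)
  else if i + 1 = 2 * k then 7 * k
  else (if i % 2 = 0 then i / 2 + 1 else 2 * k + 1 + i / 2)

def v0 (k i : ℕ) : ℕ :=
  if i + 3 ≤ 2 * k then (if i % 2 = 0 then 4 * k + 1 + i / 2 else 6 * k + 1 + i / 2)
  else if i + 2 = 2 * k then 7 * k + 1
  else if i + 1 = 2 * k then 5 * k
  else if i + 3 ≤ 4 * k then (if i % 2 = 0 then 6 * k + 2 + i / 2 else 4 * k + 1 + i / 2)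
  else if i + 2 = 4 * k then 6 * k
  else 1

theorem cu0 (k i : ℕ) (hk : 2 ≤ k) (hi : i < 4 * k) : u0 k i =
    if i + 2 ≤ 2 * k ∧ i % 2 = 0 then 2 * k + 1 + i / 2 else
    if i + 2 ≤ 2 * k then 2 + i / 2 else
    if i + 1 = 2 * k then 7 * k else
    if i % 2 = 0 then i / 2 + 1 else 2 * k + 1 + i / 2 := by
  unfold u0; split_ifs <;> omega

theorem cu0' (k i : ℕ) (hk : 2 ≤ k) (hi : i < 4 * k) :
    ((i + 2 ≤ 2 * k ∧ i % 2 = 0) ∧ u0 k i = 2 * k + 1 + i / 2) ∨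
    ((i + 2 ≤ 2 * k ∧ i % 2 = 1) ∧ u0 k i = 2 + i / 2) ∨
    (i + 1 = 2 * k ∧ u0 k i = 7 * k) ∨
    ((2 * k ≤ i ∧ i % 2 = 0) ∧ u0 k i = i / 2 + 1) ∨
    ((2 * k ≤ i ∧ i % 2 = 1) ∧ u0 k i = 2 * k + 1 + i / 2) := by
  have h := cu0 k i hk hi
  split_ifs at h
  · exact Or.inl ⟨by omega, h⟩
  · exact Or.inr (Or.inl ⟨by omega, h⟩)
  · exact Or.inr (Or.inr (Or.inl ⟨by omega, h⟩))
  · exact Or.inr (Or.inr (Or.inr (Or.inl ⟨by omega, h⟩)))
  · exact Or.inr (Or.inr (Or.inr (Or.inr ⟨by omega, h⟩)))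

theorem cv0 (k i : ℕ) (hk : 2 ≤ k) (hi : i < 4 * k) : v0 k i =
    if i + 3 ≤ 2 * k ∧ i % 2 = 0 then 4 * k + 1 + i / 2 else
    if i + 3 ≤ 2 * k then 6 * k + 1 + i / 2 else
    if i + 2 = 2 * k then 7 * k + 1 else
    if i + 1 = 2 * k then 5 * k else
    if i + 3 ≤ 4 * k ∧ i % 2 = 0 then 6 * k + 2 + i / 2 else
    if i + 3 ≤ 4 * k then 4 * k + 1 + i / 2 else
    if i + 2 = 4 * k then 6 * k else 1 := by
  unfold v0; split_ifs <;> omega

theorem cv0' (k i : ℕ) (hk : 2 ≤ k) (hi : i < 4 * k) :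
    ((i + 3 ≤ 2 * k ∧ i % 2 = 0) ∧ v0 k i = 4 * k + 1 + i / 2) ∨
    ((i + 3 ≤ 2 * k ∧ i % 2 = 1) ∧ v0 k i = 6 * k + 1 + i / 2) ∨
    (i + 2 = 2 * k ∧ v0 k i = 7 * k + 1) ∨
    (i + 1 = 2 * k ∧ v0 k i = 5 * k) ∨
    ((2 * k ≤ i ∧ i + 3 ≤ 4 * k ∧ i % 2 = 0) ∧ v0 k i = 6 * k + 2 + i / 2) ∨
    ((2 * k ≤ i ∧ i + 3 ≤ 4 * k ∧ i % 2 = 1) ∧ v0 k i = 4 * k + 1 + i / 2) ∨
    (i + 2 = 4 * k ∧ v0 k i = 6 * k) ∨
    (i + 1 = 4 * k ∧ v0 k i = 1) := by
  have h := cv0 k i hk hi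
  split_ifs at h
  · exact Or.inl ⟨by omega, h⟩
  · exact Or.inr (Or.inl ⟨by omega, h⟩)
  · exact Or.inr (Or.inr (Or.inl ⟨by omega, h⟩))
  · exact Or.inr (Or.inr (Or.inr (Or.inl ⟨by omega, h⟩)))
  · exact Or.inr (Or.inr (Or.inr (Or.inr (Or.inl ⟨by omega, h⟩))))
  · exact Or.inr (Or.inr (Or.inr (Or.inr (Or.inr (Or.inl ⟨by omega, h⟩)))))
  · exact Or.inr (Or.inr (Or.inr (Or.inr (Or.inr (Or.inr (Or.inl ⟨by omega, h⟩))))))
  · exact Or.inr (Or.inr (Or.inr (Or.inr (Or.inr (Or.inr (Or.inr ⟨by omega, h⟩))))))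

theorem su0 (k i : ℕ) (hk : 2 ≤ k) (hi : i + 1 < 4 * k) : u0 k i + u0 k (i + 1) =
    if i + 3 ≤ 2 * k then 2 * k + 3 + i else
    if i + 2 = 2 * k then 10 * k else
    if i + 1 = 2 * k then 8 * k + 1 else 2 * k + 2 + i := by
  unfold u0; split_ifs <;> omega

theorem su0' (k i : ℕ) (hk : 2 ≤ k) (hi : i + 1 < 4 * k) :
    (i + 3 ≤ 2 * k ∧ u0 k i + u0 k (i + 1) = 2 * k + 3 + i) ∨
    (i + 2 = 2 * k ∧ u0 k i + u0 k (i + 1) = 10 * k) ∨
    (i + 1 = 2 * k ∧ u0 k i + u0 k (i + 1) = 8 * k + 1) ∨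
    (2 * k ≤ i ∧ u0 k i + u0 k (i + 1) = 2 * k + 2 + i) := by
  have h := su0 k i hk hi
  split_ifs at h
  · exact Or.inl ⟨by omega, h⟩
  · exact Or.inr (Or.inl ⟨by omega, h⟩)
  · exact Or.inr (Or.inr (Or.inl ⟨by omega, h⟩))
  · exact Or.inr (Or.inr (Or.inr ⟨by omega, h⟩))

theorem sv0 (k i : ℕ) (hk : 2 ≤ k) (hi : i + 1 < 4 * k) : v0 k i + v0 k (i + 1) =
    if i + 4 ≤ 2 * k then 10 * k + 2 + i else
    if i + 3 = 2 * k then 14 * k else
    if i + 2 = 2 * k then 12 * k + 1 else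
    if i + 4 ≤ 4 * k then 10 * k + 3 + i else
    if i + 3 = 4 * k then 12 * k - 1 else 6 * k + 1 := by
  unfold v0; split_ifs <;> omega

theorem sv0' (k i : ℕ) (hk : 2 ≤ k) (hi : i + 1 < 4 * k) :
    (i + 4 ≤ 2 * k ∧ v0 k i + v0 k (i + 1) = 10 * k + 2 + i) ∨
    (i + 3 = 2 * k ∧ v0 k i + v0 k (i + 1) = 14 * k) ∨
    (i + 2 = 2 * k ∧ v0 k i + v0 k (i + 1) = 12 * k + 1) ∨
    ((2 * k ≤ i + 1 ∧ i + 4 ≤ 4 * k) ∧ v0 k i + v0 k (i + 1) = 10 * k + 3 + i) ∨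
    (i + 3 = 4 * k ∧ v0 k i + v0 k (i + 1) = 12 * k - 1) ∨
    (i + 2 = 4 * k ∧ v0 k i + v0 k (i + 1) = 6 * k + 1) := by
  have h := sv0 k i hk hi
  split_ifs at h
  · exact Or.inl ⟨by omega, h⟩
  · exact Or.inr (Or.inl ⟨by omega, h⟩)
  · exact Or.inr (Or.inr (Or.inl ⟨by omega, h⟩))
  · exact Or.inr (Or.inr (Or.inr (Or.inl ⟨by omega, h⟩)))
  · exact Or.inr (Or.inr (Or.inr (Or.inr (Or.inl ⟨by omega, h⟩))))
  · exact Or.inr (Or.inr (Or.inr (Or.inr (Or.inr ⟨by omega, h⟩))))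

theorem sr0 (k i : ℕ) (hk : 2 ≤ k) (hi : i < 4 * k) : u0 k i + v0 k i =
    if i + 3 ≤ 2 * k then 6 * k + 2 + i else
    if i + 2 = 2 * k then 10 * k + 1 else
    if i + 1 = 2 * k then 12 * k else
    if i + 3 ≤ 4 * k ∧ i % 2 = 0 then 6 * k + 3 + i else
    if i + 3 ≤ 4 * k then 6 * k + 1 + i else
    if i + 2 = 4 * k then 8 * k else 4 * k + 1 := by
  unfold u0 v0; split_ifs <;> omega

theorem sr0' (k i : ℕ) (hk : 2 ≤ k) (hi : i < 4 * k) :
    (i + 3 ≤ 2 * k ∧ u0 k i + v0 k i = 6 * k + 2 + i) ∨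
    (i + 2 = 2 * k ∧ u0 k i + v0 k i = 10 * k + 1) ∨
    (i + 1 = 2 * k ∧ u0 k i + v0 k i = 12 * k) ∨
    ((2 * k ≤ i ∧ i + 3 ≤ 4 * k ∧ i % 2 = 0) ∧ u0 k i + v0 k i = 6 * k + 3 + i) ∨
    ((2 * k ≤ i ∧ i + 3 ≤ 4 * k ∧ i % 2 = 1) ∧ u0 k i + v0 k i = 6 * k + 1 + i) ∨
    (i + 2 = 4 * k ∧ u0 k i + v0 k i = 8 * k) ∨
    (i + 1 = 4 * k ∧ u0 k i + v0 k i = 4 * k + 1) := by
  have h := sr0 k i hk hi
  split_ifs at h
  · exact Or.inl ⟨by omega, h⟩
  · exact Or.inr (Or.inl ⟨by omega, h⟩)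
  · exact Or.inr (Or.inr (Or.inl ⟨by omega, h⟩))
  · exact Or.inr (Or.inr (Or.inr (Or.inl ⟨by omega, h⟩)))
  · exact Or.inr (Or.inr (Or.inr (Or.inr (Or.inl ⟨by omega, h⟩))))
  · exact Or.inr (Or.inr (Or.inr (Or.inr (Or.inr (Or.inl ⟨by omega, h⟩)))))
  · exact Or.inr (Or.inr (Or.inr (Or.inr (Or.inr (Or.inr ⟨by omega, h⟩)))))

theorem ladder0 (k : ℕ) (hk : 2 ≤ k) : SuperEdgeMagic (ladder (4 * k)) := by
  refine sem_of (by omega) (u0 k) (v0 k) (2 * k + 3) ?_ ?_ ?_ ?_ ?_ ?_ ?_ ?_ ?_ ?_ ?_ ?_ ?_ ?_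
  · intro i j hi hj h
    have a := cu0' k i hk hi
    have b := cu0' k j hk hj
    omega
  · intro i j hi hj h
    have a := cv0' k i hk hi
    have b := cv0' k j hk hj
    omega
  · intro i j hi hj h
    have a := cu0' k i hk hi
    have b := cv0' k j hk hj
    omega
  · intro i hi
    have a := cu0' k i hk hi
    omega
  · intro i hi
    have a := cv0' k i hk hi
    omega
  · intro i j hi hj h
    have a := su0' k i hk hi
    have b := su0' k j hk hj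
    omega
  · intro i j hi hj h
    have a := sv0' k i hk hi
    have b := sv0' k j hk hj
    omega
  · intro i j hi hj h
    have a := sr0' k i hk hi
    have b := sr0' k j hk hj
    omega
  · intro i j hi hj h
    have a := su0' k i hk hi
    have b := sv0' k j hk hj
    omega
  · intro i j hi hj h
    have a := su0' k i hk hi
    have b := sr0' k j hk hj
    omega
  · intro i j hi hj h
    have a := sv0' k i hk hi
    have b := sr0' k j hk hj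
    omega
  · intro i hi
    have a := su0' k i hk hi
    omega
  · intro i hi
    have a := sv0' k i hk hi
    omega
  · intro i hi
    have a := sr0' k i hk hi
    omega

/-! ### Lengths congruent to two modulo four, at least ten -/

def u2 (k i : ℕ) : ℕ :=
  if i + 3 ≤ 2 * k then (if i % 2 = 0 then 1 + i / 2 else 2 * k + 3 + i / 2)
  else if i + 2 = 2 * k then 3 * k + 2
  else if i + 1 = 2 * k then 7 * k + 3
  else if i + 3 ≤ 4 * k then (if i % 2 = 0 then 2 * k + 3 + i / 2 else 1 + i / 2)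
  else if i + 2 = 4 * k then 8 * k + 4
  else if i + 1 = 4 * k then 6 * k + 2
  else if i = 4 * k then 4 * k + 2
  else 2 * k + 2

def v2 (k i : ℕ) : ℕ :=
  if i + 3 ≤ 2 * k then (if i % 2 = 0 then 6 * k + 4 + i / 2 else 4 * k + 3 + i / 2)
  else if i + 2 = 2 * k then k
  else if i + 1 = 2 * k then 7 * k + 4
  else if i + 3 ≤ 4 * k then (if i % 2 = 0 then 4 * k + 2 + i / 2 else 6 * k + 5 + i / 2)
  else if i + 2 = 4 * k then 6 * k + 1
  else if i + 1 = 4 * k then 6 * k + 3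
  else if i = 4 * k then 2 * k
  else 2 * k + 1

theorem cu2 (k i : ℕ) (hk : 2 ≤ k) (hi : i < 4 * k + 2) : u2 k i =
    if i + 3 ≤ 2 * k ∧ i % 2 = 0 then 1 + i / 2 else
    if i + 3 ≤ 2 * k then 2 * k + 3 + i / 2 else
    if i + 2 = 2 * k then 3 * k + 2 else
    if i + 1 = 2 * k then 7 * k + 3 else
    if i + 3 ≤ 4 * k ∧ i % 2 = 0 then 2 * k + 3 + i / 2 else
    if i + 3 ≤ 4 * k then 1 + i / 2 else
    if i + 2 = 4 * k then 8 * k + 4 else
    if i + 1 = 4 * k then 6 * k + 2 else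
    if i = 4 * k then 4 * k + 2 else 2 * k + 2 := by
  unfold u2; split_ifs <;> omega

theorem cu2' (k i : ℕ) (hk : 2 ≤ k) (hi : i < 4 * k + 2) :
    ((i + 3 ≤ 2 * k ∧ i % 2 = 0) ∧ u2 k i = 1 + i / 2) ∨
    ((i + 3 ≤ 2 * k ∧ i % 2 = 1) ∧ u2 k i = 2 * k + 3 + i / 2) ∨
    (i + 2 = 2 * k ∧ u2 k i = 3 * k + 2) ∨
    (i + 1 = 2 * k ∧ u2 k i = 7 * k + 3) ∨
    ((2 * k ≤ i ∧ i + 3 ≤ 4 * k ∧ i % 2 = 0) ∧ u2 k i = 2 * k + 3 + i / 2) ∨
    ((2 * k ≤ i ∧ i + 3 ≤ 4 * k ∧ i % 2 = 1) ∧ u2 k i = 1 + i / 2) ∨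
    (i + 2 = 4 * k ∧ u2 k i = 8 * k + 4) ∨
    (i + 1 = 4 * k ∧ u2 k i = 6 * k + 2) ∨
    (i = 4 * k ∧ u2 k i = 4 * k + 2) ∨
    (i = 4 * k + 1 ∧ u2 k i = 2 * k + 2) := by
  have h := cu2 k i hk hi
  split_ifs at h
  · exact Or.inl ⟨by omega, h⟩
  · exact Or.inr (Or.inl ⟨by omega, h⟩)
  · exact Or.inr (Or.inr (Or.inl ⟨by omega, h⟩))
  · exact Or.inr (Or.inr (Or.inr (Or.inl ⟨by omega, h⟩)))
  · exact Or.inr (Or.inr (Or.inr (Or.inr (Or.inl ⟨by omega, h⟩))))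
  · exact Or.inr (Or.inr (Or.inr (Or.inr (Or.inr (Or.inl ⟨by omega, h⟩)))))
  · exact Or.inr (Or.inr (Or.inr (Or.inr (Or.inr (Or.inr (Or.inl ⟨by omega, h⟩))))))
  · exact Or.inr (Or.inr (Or.inr (Or.inr (Or.inr (Or.inr (Or.inr (Or.inl ⟨by omega, h⟩)))))))
  · exact Or.inr (Or.inr (Or.inr (Or.inr (Or.inr (Or.inr (Or.inr (Or.inr (Or.inl ⟨by omega, h⟩))))))))
  · exact Or.inr (Or.inr (Or.inr (Or.inr (Or.inr (Or.inr (Or.inr (Or.inr (Or.inr ⟨by omega, h⟩))))))))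

theorem cv2 (k i : ℕ) (hk : 2 ≤ k) (hi : i < 4 * k + 2) : v2 k i =
    if i + 3 ≤ 2 * k ∧ i % 2 = 0 then 6 * k + 4 + i / 2 else
    if i + 3 ≤ 2 * k then 4 * k + 3 + i / 2 else
    if i + 2 = 2 * k then k else
    if i + 1 = 2 * k then 7 * k + 4 else
    if i + 3 ≤ 4 * k ∧ i % 2 = 0 then 4 * k + 2 + i / 2 else
    if i + 3 ≤ 4 * k then 6 * k + 5 + i / 2 else
    if i + 2 = 4 * k then 6 * k + 1 else
    if i + 1 = 4 * k then 6 * k + 3 else
    if i = 4 * k then 2 * k else 2 * k + 1 := by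
  unfold v2; split_ifs <;> omega

theorem cv2' (k i : ℕ) (hk : 2 ≤ k) (hi : i < 4 * k + 2) :
    ((i + 3 ≤ 2 * k ∧ i % 2 = 0) ∧ v2 k i = 6 * k + 4 + i / 2) ∨
    ((i + 3 ≤ 2 * k ∧ i % 2 = 1) ∧ v2 k i = 4 * k + 3 + i / 2) ∨
    (i + 2 = 2 * k ∧ v2 k i = k) ∨
    (i + 1 = 2 * k ∧ v2 k i = 7 * k + 4) ∨
    ((2 * k ≤ i ∧ i + 3 ≤ 4 * k ∧ i % 2 = 0) ∧ v2 k i = 4 * k + 2 + i / 2) ∨
    ((2 * k ≤ i ∧ i + 3 ≤ 4 * k ∧ i % 2 = 1) ∧ v2 k i = 6 * k + 5 + i / 2) ∨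
    (i + 2 = 4 * k ∧ v2 k i = 6 * k + 1) ∨
    (i + 1 = 4 * k ∧ v2 k i = 6 * k + 3) ∨
    (i = 4 * k ∧ v2 k i = 2 * k) ∨
    (i = 4 * k + 1 ∧ v2 k i = 2 * k + 1) := by
  have h := cv2 k i hk hi
  split_ifs at h
  · exact Or.inl ⟨by omega, h⟩
  · exact Or.inr (Or.inl ⟨by omega, h⟩)
  · exact Or.inr (Or.inr (Or.inl ⟨by omega, h⟩))
  · exact Or.inr (Or.inr (Or.inr (Or.inl ⟨by omega, h⟩)))
  · exact Or.inr (Or.inr (Or.inr (Or.inr (Or.inl ⟨by omega, h⟩))))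
  · exact Or.inr (Or.inr (Or.inr (Or.inr (Or.inr (Or.inl ⟨by omega, h⟩)))))
  · exact Or.inr (Or.inr (Or.inr (Or.inr (Or.inr (Or.inr (Or.inl ⟨by omega, h⟩))))))
  · exact Or.inr (Or.inr (Or.inr (Or.inr (Or.inr (Or.inr (Or.inr (Or.inl ⟨by omega, h⟩)))))))
  · exact Or.inr (Or.inr (Or.inr (Or.inr (Or.inr (Or.inr (Or.inr (Or.inr (Or.inl ⟨by omega, h⟩))))))))
  · exact Or.inr (Or.inr (Or.inr (Or.inr (Or.inr (Or.inr (Or.inr (Or.inr (Or.inr ⟨by omega, h⟩))))))))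

theorem su2 (k i : ℕ) (hk : 2 ≤ k) (hi : i + 1 < 4 * k + 2) : u2 k i + u2 k (i + 1) =
    if i + 4 ≤ 2 * k then 2 * k + 4 + i else
    if i + 3 = 2 * k then 6 * k + 3 else
    if i + 2 = 2 * k then 10 * k + 5 else
    if i + 1 = 2 * k then 10 * k + 6 else
    if i + 4 ≤ 4 * k then 2 * k + 4 + i else
    if i + 3 = 4 * k then 10 * k + 3 else
    if i + 2 = 4 * k then 14 * k + 6 else
    if i + 1 = 4 * k then 10 * k + 4 else 6 * k + 4 := by
  unfold u2; split_ifs <;> omega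

theorem su2' (k i : ℕ) (hk : 2 ≤ k) (hi : i + 1 < 4 * k + 2) :
    (i + 4 ≤ 2 * k ∧ u2 k i + u2 k (i + 1) = 2 * k + 4 + i) ∨
    (i + 3 = 2 * k ∧ u2 k i + u2 k (i + 1) = 6 * k + 3) ∨
    (i + 2 = 2 * k ∧ u2 k i + u2 k (i + 1) = 10 * k + 5) ∨
    (i + 1 = 2 * k ∧ u2 k i + u2 k (i + 1) = 10 * k + 6) ∨
    ((2 * k ≤ i ∧ i + 4 ≤ 4 * k) ∧ u2 k i + u2 k (i + 1) = 2 * k + 4 + i) ∨
    (i + 3 = 4 * k ∧ u2 k i + u2 k (i + 1) = 10 * k + 3) ∨
    (i + 2 = 4 * k ∧ u2 k i + u2 k (i + 1) = 14 * k + 6) ∨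
    (i + 1 = 4 * k ∧ u2 k i + u2 k (i + 1) = 10 * k + 4) ∨
    (i = 4 * k ∧ u2 k i + u2 k (i + 1) = 6 * k + 4) := by
  have h := su2 k i hk hi
  split_ifs at h
  · exact Or.inl ⟨by omega, h⟩
  · exact Or.inr (Or.inl ⟨by omega, h⟩)
  · exact Or.inr (Or.inr (Or.inl ⟨by omega, h⟩))
  · exact Or.inr (Or.inr (Or.inr (Or.inl ⟨by omega, h⟩)))
  · exact Or.inr (Or.inr (Or.inr (Or.inr (Or.inl ⟨by omega, h⟩))))
  · exact Or.inr (Or.inr (Or.inr (Or.inr (Or.inr (Or.inl ⟨by omega, h⟩)))))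
  · exact Or.inr (Or.inr (Or.inr (Or.inr (Or.inr (Or.inr (Or.inl ⟨by omega, h⟩))))))
  · exact Or.inr (Or.inr (Or.inr (Or.inr (Or.inr (Or.inr (Or.inr (Or.inl ⟨by omega, h⟩)))))))
  · exact Or.inr (Or.inr (Or.inr (Or.inr (Or.inr (Or.inr (Or.inr (Or.inr ⟨by omega, h⟩)))))))

theorem sv2 (k i : ℕ) (hk : 2 ≤ k) (hi : i + 1 < 4 * k + 2) : v2 k i + v2 k (i + 1) =
    if i + 4 ≤ 2 * k then 10 * k + 7 + i else
    if i + 3 = 2 * k then 6 * k + 1 else
    if i + 2 = 2 * k then 8 * k + 4 else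
    if i + 1 = 2 * k then 12 * k + 6 else
    if i + 4 ≤ 4 * k then 10 * k + 7 + i else
    if i + 3 = 4 * k then 14 * k + 4 else
    if i + 2 = 4 * k then 12 * k + 4 else
    if i + 1 = 4 * k then 8 * k + 3 else 4 * k + 1 := by
  unfold v2; split_ifs <;> omega

theorem sv2' (k i : ℕ) (hk : 2 ≤ k) (hi : i + 1 < 4 * k + 2) :
    (i + 4 ≤ 2 * k ∧ v2 k i + v2 k (i + 1) = 10 * k + 7 + i) ∨
    (i + 3 = 2 * k ∧ v2 k i + v2 k (i + 1) = 6 * k + 1) ∨
    (i + 2 = 2 * k ∧ v2 k i + v2 k (i + 1) = 8 * k + 4) ∨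
    (i + 1 = 2 * k ∧ v2 k i + v2 k (i + 1) = 12 * k + 6) ∨
    ((2 * k ≤ i ∧ i + 4 ≤ 4 * k) ∧ v2 k i + v2 k (i + 1) = 10 * k + 7 + i) ∨
    (i + 3 = 4 * k ∧ v2 k i + v2 k (i + 1) = 14 * k + 4) ∨
    (i + 2 = 4 * k ∧ v2 k i + v2 k (i + 1) = 12 * k + 4) ∨
    (i + 1 = 4 * k ∧ v2 k i + v2 k (i + 1) = 8 * k + 3) ∨
    (i = 4 * k ∧ v2 k i + v2 k (i + 1) = 4 * k + 1) := by
  have h := sv2 k i hk hi
  split_ifs at h
  · exact Or.inl ⟨by omega, h⟩
  · exact Or.inr (Or.inl ⟨by omega, h⟩)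
  · exact Or.inr (Or.inr (Or.inl ⟨by omega, h⟩))
  · exact Or.inr (Or.inr (Or.inr (Or.inl ⟨by omega, h⟩)))
  · exact Or.inr (Or.inr (Or.inr (Or.inr (Or.inl ⟨by omega, h⟩))))
  · exact Or.inr (Or.inr (Or.inr (Or.inr (Or.inr (Or.inl ⟨by omega, h⟩)))))
  · exact Or.inr (Or.inr (Or.inr (Or.inr (Or.inr (Or.inr (Or.inl ⟨by omega, h⟩))))))
  · exact Or.inr (Or.inr (Or.inr (Or.inr (Or.inr (Or.inr (Or.inr (Or.inl ⟨by omega, h⟩)))))))
  · exact Or.inr (Or.inr (Or.inr (Or.inr (Or.inr (Or.inr (Or.inr (Or.inr ⟨by omega, h⟩)))))))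

theorem sr2 (k i : ℕ) (hk : 2 ≤ k) (hi : i < 4 * k + 2) : u2 k i + v2 k i =
    if i + 3 ≤ 2 * k then 6 * k + 5 + i else
    if i + 2 = 2 * k then 4 * k + 2 else
    if i + 1 = 2 * k then 14 * k + 7 else
    if i + 3 ≤ 4 * k then 6 * k + 5 + i else
    if i + 2 = 4 * k then 14 * k + 5 else
    if i + 1 = 4 * k then 12 * k + 5 else
    if i = 4 * k then 6 * k + 2 else 4 * k + 3 := by
  unfold u2 v2; split_ifs <;> omega

theorem sr2' (k i : ℕ) (hk : 2 ≤ k) (hi : i < 4 * k + 2) :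
    (i + 3 ≤ 2 * k ∧ u2 k i + v2 k i = 6 * k + 5 + i) ∨
    (i + 2 = 2 * k ∧ u2 k i + v2 k i = 4 * k + 2) ∨
    (i + 1 = 2 * k ∧ u2 k i + v2 k i = 14 * k + 7) ∨
    ((2 * k ≤ i ∧ i + 3 ≤ 4 * k) ∧ u2 k i + v2 k i = 6 * k + 5 + i) ∨
    (i + 2 = 4 * k ∧ u2 k i + v2 k i = 14 * k + 5) ∨
    (i + 1 = 4 * k ∧ u2 k i + v2 k i = 12 * k + 5) ∨
    (i = 4 * k ∧ u2 k i + v2 k i = 6 * k + 2) ∨
    (i = 4 * k + 1 ∧ u2 k i + v2 k i = 4 * k + 3) := by
  have h := sr2 k i hk hi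
  split_ifs at h
  · exact Or.inl ⟨by omega, h⟩
  · exact Or.inr (Or.inl ⟨by omega, h⟩)
  · exact Or.inr (Or.inr (Or.inl ⟨by omega, h⟩))
  · exact Or.inr (Or.inr (Or.inr (Or.inl ⟨by omega, h⟩)))
  · exact Or.inr (Or.inr (Or.inr (Or.inr (Or.inl ⟨by omega, h⟩))))
  · exact Or.inr (Or.inr (Or.inr (Or.inr (Or.inr (Or.inl ⟨by omega, h⟩)))))
  · exact Or.inr (Or.inr (Or.inr (Or.inr (Or.inr (Or.inr (Or.inl ⟨by omega, h⟩))))))
  · exact Or.inr (Or.inr (Or.inr (Or.inr (Or.inr (Or.inr (Or.inr ⟨by omega, h⟩))))))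

theorem ladder2 (k : ℕ) (hk : 2 ≤ k) : SuperEdgeMagic (ladder (4 * k + 2)) := by
  refine sem_of (by omega) (u2 k) (v2 k) (2 * k + 4) ?_ ?_ ?_ ?_ ?_ ?_ ?_ ?_ ?_ ?_ ?_ ?_ ?_ ?_
  · intro i j hi hj h
    have a := cu2' k i hk hi
    have b := cu2' k j hk hj
    omega
  · intro i j hi hj h
    have a := cv2' k i hk hi
    have b := cv2' k j hk hj
    omega
  · intro i j hi hj h
    have a := cu2' k i hk hi
    have b := cv2' k j hk hj
    omega
  · intro i hi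
    have a := cu2' k i hk hi
    omega
  · intro i hi
    have a := cv2' k i hk hi
    omega
  · intro i j hi hj h
    have a := su2' k i hk hi
    have b := su2' k j hk hj
    omega
  · intro i j hi hj h
    have a := sv2' k i hk hi
    have b := sv2' k j hk hj
    omega
  · intro i j hi hj h
    have a := sr2' k i hk hi
    have b := sr2' k j hk hj
    omega
  · intro i j hi hj h
    have a := su2' k i hk hi
    have b := sv2' k j hk hj
    omega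
  · intro i j hi hj h
    have a := su2' k i hk hi
    have b := sr2' k j hk hj
    omega
  · intro i j hi hj h
    have a := sv2' k i hk hi
    have b := sr2' k j hk hj
    omega
  · intro i hi
    have a := su2' k i hk hi
    omega
  · intro i hi
    have a := sv2' k i hk hi
    omega
  · intro i hi
    have a := sr2' k i hk hi
    omega

/-! ### The small cases -/

theorem ladder_four : SuperEdgeMagic (ladder 4) :=
  superEdgeMagic_of (ladder 4) endA endB adj_ends all_ends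
    (fun x => if x.2 then (![6, 5, 4, 8] : Fin 4 → ℕ) x.1 else (![7, 1, 3, 2] : Fin 4 → ℕ) x.1)
    (by decide +kernel) (by decide +kernel) 4 (by decide +kernel) (by decide +kernel)

theorem ladder_six : SuperEdgeMagic (ladder 6) :=
  superEdgeMagic_of (ladder 6) endA endB adj_ends all_ends
    (fun x => if x.2 then (![7, 12, 8, 4, 3, 6] : Fin 6 → ℕ) x.1
      else (![11, 2, 9, 1, 5, 10] : Fin 6 → ℕ) x.1)
    (by decide +kernel) (by decide +kernel) 5 (by decide +kernel) (by decide +kernel)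

theorem not_ladder_two : ¬ SuperEdgeMagic (ladder 2) := by
  rintro ⟨f, hf⟩
  have hq : (ladder 2).edgeSet.ncard ≤ 4 :=
    (ncard_edgeSet_le (ladder 2) endA endB all_ends).trans (by decide)
  have hp : Fintype.card (Fin 2 × Bool) = 4 := by decide
  obtain ⟨σ, hσ⟩ := hf.1.2
  have hinj : ∀ x y, f x = f y → x = y := fun x y h =>
    hf.1.1.injOn (Set.mem_univ _) (Set.mem_univ _) h
  have v1 := vertex_range hf (0, false)
  have v2 := vertex_range hf (1, false)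
  have v3 := vertex_range hf (0, true)
  have v4 := vertex_range hf (1, true)
  have a1 : (ladder 2).Adj (0, false) (1, false) := Or.inl ⟨rfl, Or.inl rfl⟩
  have a2 : (ladder 2).Adj (0, true) (1, true) := Or.inl ⟨rfl, Or.inl rfl⟩
  have a3 : (ladder 2).Adj (0, false) (0, true) := Or.inr ⟨by simp, rfl⟩
  have a4 : (ladder 2).Adj (1, false) (1, true) := Or.inr ⟨by simp, rfl⟩
  have e1 := edge_range hf ⟨s((0, false), (1, false)), a1⟩
  have e2 := edge_range hf ⟨s((0, true), (1, true)), a2⟩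
  have e3 := edge_range hf ⟨s((0, false), (0, true)), a3⟩
  have e4 := edge_range hf ⟨s((1, false), (1, true)), a4⟩
  have s1 := hσ _ _ a1
  have s2 := hσ _ _ a2
  have s3 := hσ _ _ a3
  have s4 := hσ _ _ a4
  rw [hp] at v1 v2 v3 v4 e1 e2 e3 e4
  have n12 : f (Sum.inl (0, false)) ≠ f (Sum.inl (1, false)) := fun h => by
    have := hinj _ _ h; revert this; simp
  have n13 : f (Sum.inl (0, false)) ≠ f (Sum.inl (0, true)) := fun h => by
    have := hinj _ _ h; revert this; simp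
  have n14 : f (Sum.inl (0, false)) ≠ f (Sum.inl (1, true)) := fun h => by
    have := hinj _ _ h; revert this; simp
  have n23 : f (Sum.inl (1, false)) ≠ f (Sum.inl (0, true)) := fun h => by
    have := hinj _ _ h; revert this; simp
  have n24 : f (Sum.inl (1, false)) ≠ f (Sum.inl (1, true)) := fun h => by
    have := hinj _ _ h; revert this; simp
  have n34 : f (Sum.inl (0, true)) ≠ f (Sum.inl (1, true)) := fun h => by
    have := hinj _ _ h; revert this; simp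
  have key : ∀ (x y : Sym2 (Fin 2 × Bool)) (hx : x ∈ (ladder 2).edgeSet)
      (hy : y ∈ (ladder 2).edgeSet), x ≠ y → f (Sum.inr ⟨x, hx⟩) ≠ f (Sum.inr ⟨y, hy⟩) := by
    intro x y hx hy hne h
    have h1 := hinj _ _ h
    rw [Sum.inr.injEq, Subtype.mk.injEq] at h1
    exact hne h1
  have m12 := key s((0, false), (1, false)) s((0, true), (1, true)) a1 a2 (by decide)
  have m13 := key s((0, false), (1, false)) s((0, false), (0, true)) a1 a3 (by decide)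
  have m14 := key s((0, false), (1, false)) s((1, false), (1, true)) a1 a4 (by decide)
  have m23 := key s((0, true), (1, true)) s((0, false), (0, true)) a2 a3 (by decide)
  have m24 := key s((0, true), (1, true)) s((1, false), (1, true)) a2 a4 (by decide)
  have m34 := key s((0, false), (0, true)) s((1, false), (1, true)) a3 a4 (by decide)
  generalize f (Sum.inl (0, false)) = x1 at *
  generalize f (Sum.inl (1, false)) = x2 at *
  generalize f (Sum.inl (0, true)) = x3 at *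
  generalize f (Sum.inl (1, true)) = x4 at *
  generalize f (Sum.inr ⟨s((0, false), (1, false)), a1⟩) = y1 at *
  generalize f (Sum.inr ⟨s((0, true), (1, true)), a2⟩) = y2 at *
  generalize f (Sum.inr ⟨s((0, false), (0, true)), a3⟩) = y3 at *
  generalize f (Sum.inr ⟨s((1, false), (1, true)), a4⟩) = y4 at *
  have t1 : x1 + x2 + x3 + x4 = 10 := by omega
  have t2 : y1 + y2 + y3 + y4 = 26 := by omega
  omega

/-- **Main theorem.**  For even `n ≥ 2`, the ladder `L_n` is super edge-magic if and only if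
`n ≥ 4`. -/
theorem result (n : ℕ) (hn : Even n) (h2 : 2 ≤ n) : SuperEdgeMagic (ladder n) ↔ 4 ≤ n := by
  constructor
  · intro h
    by_contra hcon
    have : n = 2 := by
      obtain ⟨m, rfl⟩ := hn
      omega
    subst this
    exact not_ladder_two h
  · intro h4
    obtain ⟨m, hm⟩ := hn
    by_cases h5 : n = 4
    · subst h5; exact ladder_four
    by_cases h6 : n = 6
    · subst h6; exact ladder_six
    rcases Nat.even_or_odd m with ⟨k, hk⟩ | ⟨k, hk⟩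
    · have h7 : n = 4 * k := by omega
      rw [h7]
      exact ladder0 k (by omega)
    · have h7 : n = 4 * k + 2 := by omega
      rw [h7]
      exact ladder2 k (by omega)

end Pool.Agent.Results.MP_4fbecc_co.EvenLadders
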